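import Pool.Agent.EDG.Stmts

/-!
# Squad EDG, row GRF: the Graeffe transform
-/

set_option autoImplicit false

namespace Pool.Agent.EDG.H88

open Polynomial Finset

/-- the Graeffe transform, with a sign `ε`. -/
noncomputable def gr (ε : ℤ) (p : ℤ[X]) : ℤ[X] :=
  C ε * (contract 2 p ^ 2 - X * contract 2 (divX p) ^ 2)

theorem split (p : ℤ[X]) :
    p = expand ℤ 2 (contract 2 p) + X * expand ℤ 2 (contract 2 (divX p)) := by
  ext n
  rw [coeff_add]
  rcases n with _ | n
  · rw [coeff_expand (by norm_num)]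
    simp [coeff_contract]
  · rw [coeff_X_mul, coeff_expand (by norm_num), coeff_expand (by norm_num)]
    rcases Nat.even_or_odd' n with ⟨c, rfl | rfl⟩
    · rw [if_neg (by omega), if_pos (by omega), coeff_contract (by norm_num), coeff_divX, zero_add]
      congr 1
      omega
    · rw [if_pos (by omega), if_neg (by omega), coeff_contract (by norm_num), add_zero]
      congr 1
      omega

theorem expand_gr (ε : ℤ) (p : ℤ[X]) :
    expand ℤ 2 (gr ε p) = C ε * (p * p.comp (-X)) := by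
  have h1 : p.comp (-X) = expand ℤ 2 (contract 2 p) - X * expand ℤ 2 (contract 2 (divX p)) := by
    conv_lhs => rw [split p]
    rw [add_comp, mul_comp, X_comp, expand_eq_comp_X_pow, expand_eq_comp_X_pow, comp_assoc, comp_assoc]
    have : ((X : ℤ[X]) ^ 2).comp (-X) = X ^ 2 := by simp
    rw [this]
    ring
  rw [h1]
  conv_rhs => rw [show (C ε * (p * (expand ℤ 2 (contract 2 p) - X * expand ℤ 2 (contract 2 (divX p)))))
    = C ε * ((expand ℤ 2 (contract 2 p) + X * expand ℤ 2 (contract 2 (divX p))) *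
      (expand ℤ 2 (contract 2 p) - X * expand ℤ 2 (contract 2 (divX p)))) by rw [← split p]]
  simp only [gr, map_mul, map_sub, map_pow, expand_C, expand_X]
  ring

theorem gr_monic (p : ℤ[X]) (hp : p.Monic) (D : ℕ) (hD : p.natDegree = D) :
    (gr ((-1) ^ D) p).Monic ∧ (gr ((-1) ^ D) p).natDegree = D := by
  have h := expand_gr ((-1) ^ D) p
  have hX : (-X : ℤ[X]).natDegree = 1 := by rw [natDegree_neg, natDegree_X]
  have hc : (p.comp (-X)).leadingCoeff = (-1) ^ D := by
    rw [leadingCoeff_comp (by rw [hX]; norm_num), hp.leadingCoeff, hD, leadingCoeff_neg,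
      leadingCoeff_X, one_mul]
  have hne : p.comp (-X) ≠ 0 := by
    intro h0
    rw [h0, leadingCoeff_zero] at hc
    exact pow_ne_zero D (by norm_num : (-1 : ℤ) ≠ 0) hc.symm
  constructor
  · have h2 := congrArg leadingCoeff h
    rw [leadingCoeff_expand (by norm_num), leadingCoeff_mul, leadingCoeff_mul, leadingCoeff_C, hc,
      hp.leadingCoeff, one_mul, ← mul_pow] at h2
    rw [Monic, h2]
    norm_num
  · have h2 := congrArg natDegree h
    rw [natDegree_expand, natDegree_C_mul (pow_ne_zero D (by norm_num : (-1 : ℤ) ≠ 0)),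
      natDegree_mul hp.ne_zero hne, natDegree_comp, hX, hD] at h2
    omega

theorem gr_root (ε : ℤ) (p : ℤ[X]) {R : Type} [CommRing R] (b : R) (hb : aeval b p = 0) :
    aeval (b ^ 2) (gr ε p) = 0 := by
  rw [← expand_aeval, expand_gr, map_mul, map_mul, hb]
  simp

theorem gr_two (ε : ℤ) (hε : (ε : ZMod 2) = 1) (p : ℤ[X]) : ∃ r, gr ε p = p + 2 * r := by
  have h : (gr ε p - p).map (Int.castRingHom (ZMod 2)) = 0 := by
    have h1 : p.map (Int.castRingHom (ZMod 2)) =
        ((contract 2 p).map (Int.castRingHom (ZMod 2))) ^ 2 +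
          X * ((contract 2 (divX p)).map (Int.castRingHom (ZMod 2))) ^ 2 := by
      conv_lhs => rw [split p]
      rw [Polynomial.map_add, Polynomial.map_mul, map_X, map_expand, map_expand,
        ZMod.expand_card, ZMod.expand_card]
    rw [Polynomial.map_sub, h1, gr, Polynomial.map_mul, Polynomial.map_sub, Polynomial.map_mul,
      Polynomial.map_pow, Polynomial.map_pow, map_X, map_C]
    have : (Int.castRingHom (ZMod 2)) ε = 1 := by simpa using hε
    rw [this, C_1, one_mul]
    have h2 : (2 : (ZMod 2)[X]) = 0 := by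
      have := CharP.cast_eq_zero (ZMod 2)[X] 2
      simpa using this
    linear_combination
      (- X * ((contract 2 (divX p)).map (Int.castRingHom (ZMod 2))) ^ 2 : (ZMod 2)[X]) * h2
  have h3 : (C (2 : ℤ)) ∣ gr ε p - p := by
    rw [C_dvd_iff_dvd_coeff]
    intro i
    have := congrArg (fun q => q.coeff i) h
    simp only [coeff_map, coeff_zero] at this
    have h4 : (((gr ε p - p).coeff i : ℤ) : ZMod 2) = 0 := by simpa using this
    exact (ZMod.intCast_zmod_eq_zero_iff_dvd _ 2).mp h4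
  obtain ⟨r, hr⟩ := h3
  refine ⟨r, ?_⟩
  have : (C (2 : ℤ)) = (2 : ℤ[X]) := rfl
  rw [this] at hr
  linear_combination hr

theorem contract_add_mul (c : ℤ) (q r : ℤ[X]) :
    contract 2 (q + C c * r) = contract 2 q + C c * contract 2 r := by
  ext n
  simp [coeff_contract]

theorem divX_add_mul (c : ℤ) (q r : ℤ[X]) :
    divX (q + C c * r) = divX q + C c * divX r := by
  ext n
  simp [coeff_divX]

theorem gr_step (ε : ℤ) (p q r : ℤ[X]) (k : ℕ) (h : p = q + 2 ^ (k + 1) * r) :
    ∃ r', gr ε p = gr ε q + 2 ^ (k + 2) * r' := by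
  have hc : (C ((2 : ℤ) ^ (k + 1))) = (2 : ℤ[X]) ^ (k + 1) := by
    rw [C_pow]; rfl
  rw [← hc] at h
  rw [h, gr, gr, divX_add_mul, contract_add_mul, contract_add_mul, hc]
  refine ⟨C ε * (contract 2 q * contract 2 r + 2 ^ k * contract 2 r ^ 2
    - X * (contract 2 (divX q) * contract 2 (divX r) + 2 ^ k * contract 2 (divX r) ^ 2)), ?_⟩
  ring

theorem iter_monic (g : ℤ[X]) (hg : g.Monic) (j : ℕ) :
    ((gr ((-1) ^ g.natDegree))^[j] g).Monic ∧
      ((gr ((-1) ^ g.natDegree))^[j] g).natDegree = g.natDegree := by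
  induction j with
  | zero => exact ⟨hg, rfl⟩
  | succ j ih =>
    rw [Function.iterate_succ_apply']
    exact gr_monic _ ih.1 _ ih.2

theorem iter_root (ε : ℤ) (g : ℤ[X]) {R : Type} [CommRing R] (b : R) (hb : aeval b g = 0) (j : ℕ) :
    aeval (b ^ (2 ^ j)) ((gr ε)^[j] g) = 0 := by
  induction j with
  | zero => simpa using hb
  | succ j ih =>
    rw [Function.iterate_succ_apply', pow_succ, pow_mul]
    exact gr_root ε _ _ ih

theorem iter_step (ε : ℤ) (hε : (ε : ZMod 2) = 1) (g : ℤ[X]) (j : ℕ) :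
    ∃ r, (gr ε)^[j + 1] g = (gr ε)^[j] g + 2 ^ (j + 1) * r := by
  induction j with
  | zero =>
    obtain ⟨r, hr⟩ := gr_two ε hε g
    exact ⟨r, by simpa using hr⟩
  | succ j ih =>
    obtain ⟨r, hr⟩ := ih
    obtain ⟨r', hr'⟩ := gr_step ε _ _ r j hr
    refine ⟨r', ?_⟩
    rw [Function.iterate_succ_apply', hr', Function.iterate_succ_apply']

theorem iter_far (ε : ℤ) (hε : (ε : ZMod 2) = 1) (g : ℤ[X]) (M i : ℕ) :
    ∃ r, (gr ε)^[M + i] g = (gr ε)^[M] g + 2 ^ (M + 1) * r := by
  induction i with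
  | zero => exact ⟨0, by simp⟩
  | succ i ih =>
    obtain ⟨r, hr⟩ := ih
    obtain ⟨r', hr'⟩ := iter_step ε hε g (M + i)
    refine ⟨r + 2 ^ i * r', ?_⟩
    rw [← add_assoc, hr', hr]
    ring

theorem grf : GrfStmt := by
  intro g hg M
  have hε : (((-1) ^ g.natDegree : ℤ) : ZMod 2) = 1 := by
    have : ((-1 : ℤ) : ZMod 2) = 1 := by decide
    rw [Int.cast_pow, this, one_pow]
  refine ⟨(gr ((-1) ^ g.natDegree))^[M] g, (iter_monic g hg M).1, (iter_monic g hg M).2, ?_⟩
  intro R _ b hb i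
  obtain ⟨r, hr⟩ := iter_far _ hε g M i
  have h1 := iter_root ((-1) ^ g.natDegree) g b hb (M + i)
  rw [hr, map_add, map_mul, map_pow] at h1
  refine ⟨-(2 * aeval (b ^ 2 ^ (M + i)) r), ?_⟩
  have h2 : (aeval (b ^ 2 ^ (M + i)) : ℤ[X] →ₐ[ℤ] R) (2 : ℤ[X]) = 2 := map_ofNat _ 2
  rw [h2] at h1
  linear_combination h1

end Pool.Agent.EDG.H88
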